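import Pool.Agent.N496.CV.ConvB
import Pool.Agent.N496.LT.Stm

/-!
# Project LT: Betti numbers of the quotients of the Davis complex
-/

set_option autoImplicit false

open scoped Matrix

noncomputable section

namespace Pool.Agent.V8H54.LT

open Module Pool.Agent.W907.SG Pool.Agent.W461.SGN Pool.Agent.N496.LT Pool.Agent.N496.CV Pool.Agent.N496.CV.CB
open Pool.Agent.Y132.SI (aa)

/-! ### linear algebra of a complex over a finite group -/

section lin

variable {Q : Type} [Group Q] (C : GCx Q) (F : Type) [Field F]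

/-- vectors supported in degree `n` -/
def AA (n : ℕ) : Submodule F (C.ι × Q → F) where
  carrier := {v | ∀ x, C.deg x.1 ≠ n → v x = 0}
  add_mem' := by
    intro v w h1 h2 x hx
    rw [Pi.add_apply, h1 x hx, h2 x hx, add_zero]
  zero_mem' := fun x _ => rfl
  smul_mem' := by
    intro c v h x hx
    rw [Pi.smul_apply, h x hx, smul_zero]

variable {C F}

theorem mem_AA {n : ℕ} {v : C.ι × Q → F} : v ∈ AA C F n ↔ ∀ x, C.deg x.1 ≠ n → v x = 0 := Iff.rfl

open Classical in
/-- extension by zero -/
def ext0 (n : ℕ) : ({x : C.ι × Q // C.deg x.1 = n} → F) →ₗ[F] (C.ι × Q → F) where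
  toFun w x := if h : C.deg x.1 = n then w ⟨x, h⟩ else 0
  map_add' v w := by
    funext x
    rw [Pi.add_apply]
    split_ifs
    · rfl
    · rw [add_zero]
  map_smul' c v := by
    funext x
    rw [Pi.smul_apply, RingHom.id_apply]
    split_ifs
    · rfl
    · rw [smul_zero]

theorem ext0_apply (n : ℕ) (w : {x : C.ι × Q // C.deg x.1 = n} → F) (x : C.ι × Q) (h : C.deg x.1 = n) :
    ext0 n w x = w ⟨x, h⟩ := dif_pos h

theorem ext0_apply' (n : ℕ) (w : {x : C.ι × Q // C.deg x.1 = n} → F) (x : C.ι × Q) (h : C.deg x.1 ≠ n) :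
    ext0 n w x = 0 := dif_neg h

theorem ext0_inj (n : ℕ) : Function.Injective (ext0 (C := C) (F := F) n) := by
  intro v w h
  funext x
  rw [← ext0_apply n v x.1 x.2, ← ext0_apply n w x.1 x.2, h]

theorem range_ext0 (n : ℕ) : LinearMap.range (ext0 (C := C) (F := F) n) = AA C F n := by
  ext v
  rw [LinearMap.mem_range]
  constructor
  · rintro ⟨w, rfl⟩ x hx
    exact ext0_apply' n w x hx
  · intro h
    refine ⟨fun x => v x.1, ?_⟩
    funext x
    by_cases hx : C.deg x.1 = n
    · rw [ext0_apply n _ x hx]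
    · rw [ext0_apply' n _ x hx, h x hx]

variable [Fintype Q]

theorem finrank_AA (n : ℕ) : finrank F (AA C F n) = Fintype.card {i : C.ι // C.deg i = n} * Fintype.card Q := by
  classical
  rw [← range_ext0, LinearMap.finrank_range_of_inj (ext0_inj n), finrank_fintype_fun_eq_card, ← Fintype.card_prod]
  refine Fintype.card_congr ⟨fun x => (⟨x.1.1, x.2⟩, x.1.2), fun x => ⟨(x.1.1, x.2), x.1.2⟩, fun _ => rfl,
    fun _ => rfl⟩

/-- right multiplication by the matrix -/
def bm (C : GCx Q) (F : Type) [Field F] : (C.ι × Q → F) →ₗ[F] (C.ι × Q → F) := (C.mat F).vecMulLinear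

theorem bm_apply (v : C.ι × Q → F) : bm C F v = v ᵥ* C.mat F := rfl

theorem rk_eq (n : ℕ) : C.rk F n = finrank F ((AA C F n).map (bm C F)) := by
  classical
  unfold GCx.rk
  rw [← Matrix.rank_transpose, Matrix.rank]
  have : LinearMap.range (((C.mat F).submatrix (fun x : {x : C.ι × Q // C.deg x.1 = n} => x.1) id)ᵀ.mulVecLin) =
      (AA C F n).map (bm C F) := by
    rw [← range_ext0, ← LinearMap.range_comp]
    congr 1
    ext1 i
    refine LinearMap.ext fun a => ?_
    funext y
    simp only [LinearMap.comp_apply, LinearMap.single_apply, Matrix.mulVecLin_apply, bm_apply]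
    rw [Matrix.mulVec_transpose]
    simp only [Matrix.vecMul, dotProduct, Matrix.submatrix_apply, id]
    have h1 := sum_deg (ι := C.ι × Q) (fun x => C.deg x.1) n
      (fun x => ext0 n (Pi.single i a) x * C.mat F x y) (fun x hx => by
        rw [ext0_apply' n _ x hx, zero_mul])
    rw [← h1]
    refine Finset.sum_congr rfl fun x _ => ?_
    rw [ext0_apply n _ x.1 x.2]
  rw [this]

omit [Group Q] [Fintype Q] in
theorem rn {E E' : Type} [AddCommGroup E] [Module F E] [AddCommGroup E'] [Module F E'] [FiniteDimensional F E]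
    (f : E →ₗ[F] E') (p : Submodule F E) :
    finrank F (p.map f) + finrank F (p ⊓ LinearMap.ker f : Submodule F E) = finrank F p := by
  have h1 := LinearMap.finrank_range_add_finrank_ker (f.comp p.subtype)
  rw [LinearMap.range_comp, Submodule.range_subtype, LinearMap.ker_comp] at h1
  have h2 := LinearMap.finrank_range_of_inj (f := p.subtype.comp (Submodule.comap p.subtype (LinearMap.ker f)).subtype)
    (by
      rw [LinearMap.coe_comp]
      exact (Submodule.subtype_injective _).comp (Submodule.subtype_injective _))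
  rw [LinearMap.range_comp, Submodule.range_subtype, Submodule.map_comap_subtype] at h2
  rw [h2]
  exact h1

theorem betti_eq (n : ℕ) : C.betti F n =
    (finrank F (AA C F n ⊓ LinearMap.ker (bm C F) : Submodule F (C.ι × Q → F)) : ℤ) -
      finrank F ((AA C F (n + 1)).map (bm C F)) := by
  unfold GCx.betti
  rw [rk_eq, rk_eq]
  have h1 := rn (bm C F) (AA C F n)
  rw [finrank_AA] at h1
  have h3 : ((Fintype.card {i : C.ι // C.deg i = n} * Fintype.card Q : ℕ) : ℤ) =
    ((finrank F ((AA C F n).map (bm C F)) +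
      finrank F (AA C F n ⊓ LinearMap.ker (bm C F) : Submodule F (C.ι × Q → F)) : ℕ) : ℤ) := by rw [h1]
  push_cast at h3
  rw [h3]
  ring

end lin

/-! ### the comparison -/

section cmp

variable {V F : Type} [Fintype V] [LinearOrder V] [Field F] {G : SimpleGraph V}
    (N : Subgroup (th G).ker) [N.Normal]

/-- vectors of functions on the kernel -/
def lft (v : ((davis G).quot N).ι × ((th G).ker ⧸ N) → F) : (davis G).ι → (th G).ker → F :=
  fun i g => v (i, (g : (th G).ker ⧸ N))

/-- the functional -/
def phi [Fintype ((th G).ker ⧸ N)] (f : (th G).ker ⧸ N → F) (h : (th G).ker ⧸ N) :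
    MonoidAlgebra ℤ ((th G).ker ⧸ N) →+ F where
  toFun a := ∑ y, f y * ((a.coeff (y⁻¹ * h) : ℤ) : F)
  map_zero' := by simp
  map_add' a b := by
    rw [← Finset.sum_add_distrib]
    refine Finset.sum_congr rfl fun y _ => ?_
    rw [MonoidAlgebra.coeff_add, Finsupp.add_apply]
    push_cast
    ring

omit [Fintype V] [LinearOrder V] in
theorem coef [Fintype ((th G).ker ⧸ N)] (f : (th G).ker ⧸ N → F) (h : (th G).ker)
    (a : MonoidAlgebra ℤ (th G).ker) :
    phi N f (h : (th G).ker ⧸ N) (MonoidAlgebra.mapDomainRingHom ℤ (QuotientGroup.mk' N) a) =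
      a.coeff.sum fun γ n => n • f ((h * γ⁻¹ : (th G).ker) : (th G).ker ⧸ N) := by
  classical
  induction a using MonoidAlgebra.induction_linear with
  | zero => simp
  | add a b ha hb =>
    rw [map_add, map_add, ha, hb, MonoidAlgebra.coeff_add]
    have h1 := Finsupp.sum_add_index' (f := a.coeff) (g := b.coeff)
      (h := fun γ n => n • f ((h * γ⁻¹ : (th G).ker) : (th G).ker ⧸ N)) (fun _ => zero_smul _ _)
      (fun _ _ _ => add_smul _ _ _)
    exact h1.symm
  | single g n =>
    have h0 : MonoidAlgebra.mapDomainRingHom ℤ (QuotientGroup.mk' N) (MonoidAlgebra.single g n) =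
        MonoidAlgebra.single (g : (th G).ker ⧸ N) n := by simp
    rw [h0, MonoidAlgebra.coeff_single, Finsupp.sum_single_index (by simp)]
    show ∑ y, f y * (((MonoidAlgebra.single (g : (th G).ker ⧸ N) n).coeff (y⁻¹ * h) : ℤ) : F) = _
    rw [Finset.sum_eq_single (((h * g⁻¹ : (th G).ker) : (th G).ker ⧸ N))]
    · rw [MonoidAlgebra.coeff_single, Finsupp.single_apply, if_pos, zsmul_eq_mul, mul_comm]
      simp
    · intro y _ hy
      rw [MonoidAlgebra.coeff_single, Finsupp.single_apply, if_neg, Int.cast_zero, mul_zero]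
      intro h1
      apply hy
      have h2 : y * (g : (th G).ker ⧸ N) = h := by rw [h1, mul_inv_cancel_left]
      rw [QuotientGroup.mk_mul, QuotientGroup.mk_inv, ← h2, mul_inv_cancel_right]
    · intro h1
      exact absurd (Finset.mem_univ _) h1

theorem lft_bm [Fintype ((th G).ker ⧸ N)] (v : ((davis G).quot N).ι × ((th G).ker ⧸ N) → F) :
    lft N (bm ((davis G).quot N) F v) = mulD (lft N v) := by
  funext j h
  unfold mulD
  show (v ᵥ* ((davis G).quot N).mat F) (j, (h : (th G).ker ⧸ N)) = _
  unfold Matrix.vecMul dotProduct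
  rw [Fintype.sum_prod_type]
  refine Finset.sum_congr rfl fun i _ => ?_
  exact coef N (fun y => v (i, y)) h ((davis G).D i j)

/-- the comparison map -/
def Th : (((davis G).quot N).ι × ((th G).ker ⧸ N) → F) →ₗ[F] (Finset V → W G → F) where
  toFun v := Psi (lft N v)
  map_add' v w := by
    funext T x
    rw [Pi.add_apply, Pi.add_apply, psi_vv, psi_vv, psi_vv]
    unfold vv
    split_ifs
    · unfold lft
      rw [Pi.add_apply, mul_add]
    · simp
  map_smul' c v := by
    funext T x
    rw [Pi.smul_apply, Pi.smul_apply, psi_vv, psi_vv]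
    unfold vv
    split_ifs
    · unfold lft
      rw [Pi.smul_apply, RingHom.id_apply, smul_eq_mul, smul_eq_mul]
      ring
    · simp

theorem Th_inj : Function.Injective (Th (F := F) N) := by
  intro v w h
  have h1 : lft N v = lft N w := psi_inj h
  funext ⟨i, q⟩
  induction q using QuotientGroup.induction_on with
  | H g => exact congrFun (congrFun h1 i) g

theorem bd_eq (c : Finset V → W G → F) : bd F c = bdf G c := by
  funext T w
  rw [bd_apply]
  unfold bdf
  simp [Finset.sum_apply]

theorem Th_bm [Fintype ((th G).ker ⧸ N)] (v : ((davis G).quot N).ι × ((th G).ker ⧸ N) → F) :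
    Th N (bm ((davis G).quot N) F v) = bd F (Th N v) := by
  rw [bd_eq]
  show Psi (lft N (bm ((davis G).quot N) F v)) = bdf G (Psi (lft N v))
  rw [lft_bm, psi_mulD]

/-- the pull back of functions -/
def JJ (H : Subgroup (W G)) (F : Type) [Field F] :
    (Finset V → Quotient (QuotientGroup.rightRel H) → F) →ₗ[F] (Finset V → W G → F) where
  toFun c T w := c T (Quotient.mk'' w)
  map_add' _ _ := rfl
  map_smul' _ _ := rfl

omit [Fintype V] [LinearOrder V] in
theorem JJ_inj (H : Subgroup (W G)) : Function.Injective (JJ H F) := by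
  intro c d h
  funext T x
  induction x using Quotient.inductionOn' with
  | h w => exact congrFun (congrFun h T) w

theorem JJ_bd (H : Subgroup (W G)) (c : Finset V → Quotient (QuotientGroup.rightRel H) → F) :
    JJ H F (bd F c) = bd F (JJ H F c) := by
  funext T w
  show bd F c T (Quotient.mk'' w) = _
  rw [bd_apply, bd_apply, Finset.sum_apply, Finset.sum_apply]
  rfl

theorem map_eq [Fintype ((th G).ker ⧸ N)]
    [Fintype (Quotient (QuotientGroup.rightRel (N.map (th G).ker.subtype)))] (n : ℕ) :
    (AA ((davis G).quot N) F n).map (Th N) =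
      (KK G (pull F (aa G (N.map (th G).ker.subtype))) Set.univ ∅ n).map (JJ (N.map (th G).ker.subtype) F) := by
  classical
  have hK : N.map (th G).ker.subtype ≤ (th G).ker := by
    rintro _ ⟨g, -, rfl⟩
    exact g.2
  ext c
  rw [Submodule.mem_map, Submodule.mem_map]
  constructor
  · rintro ⟨v, hv, rfl⟩
    have hFV : FV (N.map (th G).ker.subtype) (1 : (N.map (th G).ker.subtype) →* F) n (lft N v) := by
      refine ⟨fun i hi => ?_, fun i h g g' hg => ?_, ?_⟩
      · funext g
        exact hv (i, _) hi
      · rw [MonoidHom.one_apply, mul_one]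
        unfold lft
        congr 2
        obtain ⟨_, k, hk, rfl⟩ := h
        have h1 : g' = k * g := Subtype.ext hg
        rw [h1, QuotientGroup.mk_mul, (QuotientGroup.eq_one_iff k).2 hk, one_mul]
      · refine ⟨Finset.univ.image fun q : (th G).ker ⧸ N => q.out, fun i g _ => ?_⟩
        refine ⟨⟨(g * ((g : (th G).ker ⧸ N).out)⁻¹ : (th G).ker), ?_⟩, (g : (th G).ker ⧸ N).out,
          Finset.mem_image_of_mem _ (Finset.mem_univ _), ?_⟩
        · refine ⟨g * ((g : (th G).ker ⧸ N).out)⁻¹, ?_, rfl⟩
          show _ ∈ N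
          rw [← QuotientGroup.eq_one_iff, QuotientGroup.mk_mul, QuotientGroup.mk_inv, QuotientGroup.out_eq',
            mul_inv_cancel]
        · simp
    have h1 := psi_isCh _ 1 hK n _ hFV
    refine ⟨fun T x => Quotient.liftOn' x (fun w => Psi (lft N v) T w) (fun a b hab => ?_), ?_, rfl⟩
    · rw [QuotientGroup.rightRel_apply] at hab
      have h2 := (h1.mem T).eqK ⟨_, hab⟩ a
      rw [MonoidHom.one_apply, mul_one] at h2
      rw [← h2]
      simp
    · rw [mem_KK]
      refine ⟨fun T hT => ?_, fun T t ht => ?_⟩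
      · funext x
        induction x using Quotient.inductionOn' with
        | h w => exact congrFun (h1.supp T hT) w
      · funext x
        induction x using Quotient.inductionOn' with
        | h w => exact h1.anti T t (by simpa using ht) w
  · rintro ⟨d, hd, rfl⟩
    rw [mem_KK] at hd
    have h1 : IsCh G Set.univ (InM (N.map (th G).ker.subtype) (1 : (N.map (th G).ker.subtype) →* F) Set.univ ⊥) n
        (JJ (N.map (th G).ker.subtype) F d) := by
      refine ⟨fun T hT => ?_, fun T => ⟨fun _ _ => trivial, fun p hp w => ?_, fun h w => ?_, ?_⟩, fun T t ht w => ?_⟩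
      · funext w
        exact congrFun (hd.1 T hT) _
      · rw [Subgroup.mem_bot] at hp
        rw [hp]
        simp
      · rw [MonoidHom.one_apply, mul_one]
        show d T (Quotient.mk'' (h * w)) = d T (Quotient.mk'' w)
        congr 1
        refine Quotient.sound' ?_
        rw [QuotientGroup.rightRel_apply, mul_inv_rev, mul_inv_cancel_left]
        exact Subgroup.inv_mem _ h.2
      · refine ⟨Finset.univ.image fun q : Quotient (QuotientGroup.rightRel (N.map (th G).ker.subtype)) => q.out,
          fun w _ => ?_⟩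
        have h2 : (QuotientGroup.rightRel (N.map (th G).ker.subtype))
            (Quotient.mk'' w : Quotient (QuotientGroup.rightRel (N.map (th G).ker.subtype))).out w :=
          Quotient.mk_out (s := QuotientGroup.rightRel (N.map (th G).ker.subtype)) w
        rw [QuotientGroup.rightRel_apply] at h2
        refine ⟨⟨_, h2⟩, _, Finset.mem_image_of_mem _ (Finset.mem_univ (Quotient.mk'' w)), 1, Subgroup.one_mem _, ?_⟩
        simp
      · exact congrFun (hd.2 T t (Or.inl ht)) (Quotient.mk'' w)
    obtain ⟨v, hv, hvc⟩ := psi_surj _ _ hK n _ h1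
    refine ⟨fun x => v x.1 x.2.out, fun x hx => ?_, ?_⟩
    · show v x.1 _ = 0
      rw [hv.deg x.1 hx]
      rfl
    · rw [← hvc]
      show Psi (lft N _) = _
      congr 1
      funext i g
      show v i (g : (th G).ker ⧸ N).out = v i g
      have h3 : (g : (th G).ker ⧸ N).out * g⁻¹ ∈ N := by
        rw [← QuotientGroup.eq_one_iff, QuotientGroup.mk_mul, QuotientGroup.mk_inv, QuotientGroup.out_eq',
          mul_inv_cancel]
      have h4 := hv.eqK i ⟨_, ⟨_, h3, rfl⟩⟩ g (g : (th G).ker ⧸ N).out (by simp)
      rw [h4, MonoidHom.one_apply, mul_one]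

theorem fr_eq {E E' : Type} [AddCommMonoid E] [Module F E] [AddCommMonoid E'] [Module F E'] {f : E →ₗ[F] E'}
    (hf : Function.Injective f) (p : Submodule F E) : finrank F p = finrank F (p.map f) :=
  (Submodule.equivMapOfInjective f hf p).finrank_eq

theorem map_inf_ker {E E' : Type} [AddCommMonoid E] [Module F E] [AddCommMonoid E'] [Module F E'] {f : E →ₗ[F] E'}
    (hf : Function.Injective f) (p : Submodule F E) (d : E →ₗ[F] E) (d' : E' →ₗ[F] E') (h : ∀ x, f (d x) = d' (f x)) :
    (p ⊓ LinearMap.ker d).map f = p.map f ⊓ LinearMap.ker d' := by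
  ext y
  rw [Submodule.mem_map, Submodule.mem_inf, Submodule.mem_map]
  constructor
  · rintro ⟨x, hx, rfl⟩
    refine ⟨⟨x, hx.1, rfl⟩, ?_⟩
    rw [LinearMap.mem_ker, ← h, LinearMap.mem_ker.1 hx.2, map_zero]
  · rintro ⟨⟨x, hx, rfl⟩, h2⟩
    refine ⟨x, ⟨hx, ?_⟩, rfl⟩
    rw [LinearMap.mem_ker, ← h] at h2
    exact hf (h2.trans (map_zero f).symm)

theorem betti_beta [Fintype ((th G).ker ⧸ N)]
    [Fintype (Quotient (QuotientGroup.rightRel (N.map (th G).ker.subtype)))] (n : ℕ) :
    ((davis G).quot N).betti F n =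
      beta G (pull F (aa G (N.map (th G).ker.subtype))) Set.univ ∅ n := by
  rw [betti_eq]
  unfold beta
  rw [Nat.cast_sub (Submodule.finrank_mono (BB_le_ZZ _ _ _ _ _))]
  have eZ : finrank F (ZZ G (pull F (aa G (N.map (th G).ker.subtype))) Set.univ ∅ n) =
      finrank F ((ZZ G (pull F (aa G (N.map (th G).ker.subtype))) Set.univ ∅ n).map
        (JJ (N.map (th G).ker.subtype) F)) :=
    (Submodule.equivMapOfInjective (JJ (N.map (th G).ker.subtype) F) (JJ_inj _) _).finrank_eq
  have eB : finrank F (BB G (pull F (aa G (N.map (th G).ker.subtype))) Set.univ ∅ n) =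
      finrank F ((BB G (pull F (aa G (N.map (th G).ker.subtype))) Set.univ ∅ n).map
        (JJ (N.map (th G).ker.subtype) F)) :=
    (Submodule.equivMapOfInjective (JJ (N.map (th G).ker.subtype) F) (JJ_inj _) _).finrank_eq
  rw [eZ, eB]
  congr 2
  · rw [fr_eq (Th_inj N), map_inf_ker (Th_inj N) _ _ _ (Th_bm N), map_eq]
    unfold ZZ
    rw [map_inf_ker (JJ_inj _) _ _ _ (JJ_bd _)]
  · rw [fr_eq (Th_inj N)]
    unfold BB
    rw [← Submodule.map_comp, ← Submodule.map_comp]
    have h1 : (Th N).comp (bm ((davis G).quot N) F) = (bd F).comp (Th N) := LinearMap.ext fun v => Th_bm N v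
    have h2 : (JJ (N.map (th G).ker.subtype) F).comp (bd F) = (bd F).comp (JJ (N.map (th G).ker.subtype) F) :=
      LinearMap.ext fun v => JJ_bd _ v
    rw [h1, h2, Submodule.map_comp, Submodule.map_comp, map_eq]

end cmp

/-- **P4B**: the Betti numbers of the quotients of the Davis complex -/
theorem p4b : P4B := fun _ _ _ _ _ _ N _ _ _ n _ => betti_beta N n

end Pool.Agent.V8H54.LT
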