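import Pool.Agent.V8H54.LT.DC
import Pool.Agent.V8H3.LT.Asm

/-!
# Project LT: the main theorem for explicit data
-/

set_option autoImplicit false

open scoped Matrix

noncomputable section

namespace Pool.Agent.V8H54.LT

open Module Filter Topology Pool.Agent.W907.SG Pool.Agent.W461.SGN Pool.Agent.R782.Bal
open Pool.Agent.N496.LT Pool.Agent.V8H3.LT
open Pool.Agent.TH652.Above (HSph)
open Pool.Agent.N504.RS.Two (HSph2)

/-- the graph with the given adjacency rows (bitsets), made symmetric and irreflexive -/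
def gr (N : ℕ) (rows : List ℕ) : SimpleGraph (Fin N) where
  Adj x y := x ≠ y ∧ ((rows.getD x 0).testBit y = true ∧ (rows.getD y 0).testBit x = true)
  symm := ⟨fun _ _ h => ⟨h.1.symm, h.2.2, h.2.1⟩⟩
  loopless := ⟨fun _ h => h.1 rfl⟩

/-- adjacency by rows, for the kernel -/
def adjR (rows : List ℕ) (x y : ℕ) : Bool := Nat.beq (Nat.land (Nat.shiftRight (rows.getD x 0) y) 1) 1

theorem adjR_iff {rows : List ℕ} {x y : ℕ} : adjR rows x y = true ↔ (rows.getD x 0).testBit y = true := by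
  unfold adjR
  rw [beq_iff, Nat.testBit_eq_decide_div_mod_eq, decide_eq_true_eq]
  show (rows.getD x 0 >>> y) &&& 1 = 1 ↔ _
  rw [Nat.and_one_is_mod, Nat.shiftRight_eq_div_pow]

/-- The growth of the torsion for one graph with a doubled cycle given by explicit data. -/
theorem main_of_data (hM : Main3H) {N d p : ℕ} [Fact p.Prime] (hp : p ≠ 2) (hd : 1 ≤ d) {H : SimpleGraph (Fin N)}
    (h1 : HSph (2 * d + 1) H) (h2 : HSph2 (2 * d + 1) H) {rows : List ℕ}
    (hadj : ∀ x y : Fin N, H.Adj x y ↔ (rows.getD x 0).testBit y = true) (V : List (ℕ × ℕ × ℕ))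
    (S : List (List ℕ × ℕ)) (h : chk N d p (adjR rows) V S = true) :
    ∃ (n : ℕ) (S : SimpleGraph (Fin n)), Sub H S ∧ HSph (2 * d + 1) S ∧ HSph2 (2 * d + 1) S ∧ (∀ i, L2Van S i) ∧
    ResFin (th S).ker ∧
    (davis S).toFree.DetL2Acyclic ∧
    ((davis S).prod ((davis S).prod (davis S))).toFree.DetL2Acyclic ∧
    ((davis S).prod ((davis S).prod (davis S))).toFree.l2torsion = 0 ∧
    ∀ (K : ℕ → Subgroup (th S).ker) [∀ i, (K i).Normal], (∀ i, (K i).FiniteIndex) → Antitone K →
      ⨅ i, K i = ⊥ → ∀ c : ℝ, 0 < c → c < 2 ^ n / 2 ^ numU V → ∀ᶠ i in atTop, c ^ 3 * Real.log p ≤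
        Real.log ((((davis S).prod ((davis S).prod (davis S))).quot
          ((K i).prod ((K i).prod (K i)))).torsOrder (3 * d + 1)) / ((K i).prod ((K i).prod (K i))).index := by
  obtain ⟨Z, c, hc, -, hU⟩ := exists_dbl (H := H) (adj := adjR rows) (fun x y => by rw [adjR_iff, hadj]) h
  rw [← hU]
  exact hM d N H hd h1 h2 p hp Z c hc

end Pool.Agent.V8H54.LT
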