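import Pool.Agent.V8H54.LT.DD

/-!
# Project LT: doubled cycles from explicit data, the check
-/

set_option autoImplicit false

noncomputable section

namespace Pool.Agent.V8H54.LT

open Pool.Agent.N496.LT Pool.Agent.W907.SG

/-- pairwise, for the kernel -/
def pw {α : Type} (r : α → α → Bool) : List α → Bool
  | [] => true
  | x :: l => bif all (r x) l then pw r l else false

theorem pw_iff {α : Type} (r : α → α → Bool) (l : List α) :
    pw r l = true ↔ l.Pairwise fun x y => r x y = true := by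
  induction l with
  | nil =>
    exact ⟨fun _ => List.Pairwise.nil, fun _ => rfl⟩
  | cons x l ih =>
    rw [List.pairwise_cons, ← ih, ← all_iff,
      show pw r (x :: l) = bif all (r x) l then pw r l else false from rfl]
    rcases h : all (r x) l with _ | _
    · rw [cond_false]
      constructor
      · intro h2
        cases h2
      · intro h2
        cases h2.1
    · rw [cond_true]
      exact ⟨fun h2 => ⟨rfl, h2⟩, fun h2 => h2.2⟩

/-- the coefficient of the simplex with the code `m` -/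
def coefZ (m : ℕ) : List (List ℕ × ℕ) → ℕ
  | [] => 0
  | e :: S => bif Nat.beq (code e.1) m then Nat.add e.2 (coefZ m S) else coefZ m S

/-- not adjacent -/
def nadj (adj : ℕ → ℕ → Bool) (x y : ℕ) : Bool := bif adj x y then false else true

/-- the condition for one vertex: the lifts `t`, `f` and the colour `c` -/
def okV (N d : ℕ) (adj : ℕ → ℕ → Bool) (v : ℕ × ℕ × ℕ) : Bool :=
  bif Nat.blt v.1 N then bif Nat.blt v.2.1 N then bif Nat.blt v.2.2 (d + 1) then
    bif Nat.beq v.1 v.2.1 then true else nadj adj v.1 v.2.1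
  else false else false else false

/-- the condition for two different vertices -/
def okP (adj : ℕ → ℕ → Bool) (v w : ℕ × ℕ × ℕ) : Bool :=
  bif Nat.beq v.1 w.1 then false else bif Nat.beq v.1 w.2.1 then false else
  bif Nat.beq v.2.1 w.1 then false else bif Nat.beq v.2.1 w.2.1 then false else
  bif (bif Nat.beq v.2.2 w.2.2 then
    (bif nadj adj v.1 w.1 then bif nadj adj v.1 w.2.1 then bif nadj adj v.2.1 w.1 then nadj adj v.2.1 w.2.1
      else false else false else false) else true) then
    (bif Nat.beq v.1 v.2.1 then bif Nat.beq w.1 w.2.1 then adj v.1 w.1 else true else true)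
  else false

/-- the condition for two different vertices of a simplex -/
def okE (V : List (ℕ × ℕ × ℕ)) (adj : ℕ → ℕ → Bool) (x y : ℕ) : Bool :=
  bif adj (V.getD x (0, 0, 0)).1 (V.getD y (0, 0, 0)).1 then
  bif adj (V.getD x (0, 0, 0)).1 (V.getD y (0, 0, 0)).2.1 then
  bif adj (V.getD x (0, 0, 0)).2.1 (V.getD y (0, 0, 0)).1 then
  adj (V.getD x (0, 0, 0)).2.1 (V.getD y (0, 0, 0)).2.1 else false else false else false

/-- the condition for one simplex -/
def okS (d n : ℕ) (V : List (ℕ × ℕ × ℕ)) (adj : ℕ → ℕ → Bool) (e : List ℕ × ℕ) : Bool :=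
  bif Nat.beq e.1.length (d + 1) then bif all (fun x => Nat.blt x n) e.1 then bif nodup e.1 then
    pw (okE V adj) e.1 else false else false else false

/-- all conditions -/
def chk (N d p : ℕ) (adj : ℕ → ℕ → Bool) (V : List (ℕ × ℕ × ℕ)) (S : List (List ℕ × ℕ)) : Bool :=
  bif all (okV N d adj) V then bif pw (okP adj) V then bif all (okS d V.length V adj) S then
  bif all (fun f => Nat.beq (Nat.mod (coefF f.1 (allFaces (p - 1) S)) p) 0) (allFaces (p - 1) S) then
    match S with
    | [] => false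
    | e :: _ => bif Nat.beq (Nat.mod (coefZ (code e.1) S) p) 0 then false else true
  else false else false else false else false

/-- the number of vertices with one lift -/
def numU (V : List (ℕ × ℕ × ℕ)) : ℕ := V.countP fun v => Nat.beq v.1 v.2.1

theorem nadj_iff {adj : ℕ → ℕ → Bool} {x y : ℕ} : nadj adj x y = true ↔ ¬ adj x y = true := by
  unfold nadj
  rcases adj x y with _ | _ <;> simp

theorem bif_false {a b : Bool} : (bif a then b else false) = true ↔ a = true ∧ b = true := by
  rcases a with _ | _ <;> simp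

theorem bif_false' {a b : Bool} : (bif a then false else b) = true ↔ ¬ a = true ∧ b = true := by
  rcases a with _ | _ <;> simp

theorem bif_true' {a b : Bool} : (bif a then b else true) = true ↔ (a = true → b = true) := by
  rcases a with _ | _ <;> simp

theorem bif_true {a b : Bool} : (bif a then true else b) = true ↔ (¬ a = true → b = true) := by
  rcases a with _ | _ <;> simp

theorem beq_iff {a b : ℕ} : Nat.beq a b = true ↔ a = b :=
  ⟨Nat.eq_of_beq_eq_true, fun h => by rw [h]; exact Nat.beq_refl b⟩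

theorem blt_iff {a b : ℕ} : Nat.blt a b = true ↔ a < b := by rw [Nat.blt_eq]

theorem countP_eq_sum {α : Type} (q : α → Bool) (l : List α) :
    l.countP q = (l.map fun x => if q x = true then 1 else 0).sum := by
  induction l with
  | nil => rfl
  | cons x l ih =>
    rw [List.countP_cons, List.map_cons, List.sum_cons, ih, add_comm]

theorem okV_iff {N d : ℕ} {adj : ℕ → ℕ → Bool} {v : ℕ × ℕ × ℕ} : okV N d adj v = true ↔
    v.1 < N ∧ v.2.1 < N ∧ v.2.2 < d + 1 ∧ (v.1 ≠ v.2.1 → ¬ adj v.1 v.2.1 = true) := by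
  unfold okV
  rw [bif_false, bif_false, bif_false, bif_true, nadj_iff, blt_iff, blt_iff, blt_iff, beq_iff]

theorem okP_iff {adj : ℕ → ℕ → Bool} {v w : ℕ × ℕ × ℕ} : okP adj v w = true ↔
    v.1 ≠ w.1 ∧ v.1 ≠ w.2.1 ∧ v.2.1 ≠ w.1 ∧ v.2.1 ≠ w.2.1 ∧
    (v.2.2 = w.2.2 → ¬ adj v.1 w.1 = true ∧ ¬ adj v.1 w.2.1 = true ∧ ¬ adj v.2.1 w.1 = true ∧
      ¬ adj v.2.1 w.2.1 = true) ∧
    (v.1 = v.2.1 → w.1 = w.2.1 → adj v.1 w.1 = true) := by
  unfold okP
  rw [bif_false', bif_false', bif_false', bif_false', bif_false, bif_true', bif_true', bif_true', bif_false,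
    bif_false, bif_false]
  simp only [beq_iff, nadj_iff, ne_eq]

theorem okE_iff {V : List (ℕ × ℕ × ℕ)} {adj : ℕ → ℕ → Bool} {x y : ℕ} : okE V adj x y = true ↔
    adj (V.getD x (0, 0, 0)).1 (V.getD y (0, 0, 0)).1 = true ∧
    adj (V.getD x (0, 0, 0)).1 (V.getD y (0, 0, 0)).2.1 = true ∧
    adj (V.getD x (0, 0, 0)).2.1 (V.getD y (0, 0, 0)).1 = true ∧
    adj (V.getD x (0, 0, 0)).2.1 (V.getD y (0, 0, 0)).2.1 = true := by
  unfold okE
  rw [bif_false, bif_false, bif_false]

theorem okS_iff {d n : ℕ} {V : List (ℕ × ℕ × ℕ)} {adj : ℕ → ℕ → Bool} {e : List ℕ × ℕ} :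
    okS d n V adj e = true ↔ e.1.length = d + 1 ∧ (∀ x ∈ e.1, x < n) ∧ e.1.Nodup ∧
      e.1.Pairwise fun x y => okE V adj x y = true := by
  unfold okS
  rw [bif_false, bif_false, bif_false, beq_iff, all_iff, nodup_iff, pw_iff]
  simp only [blt_iff]

theorem coefZ_eq {n : ℕ} (p : ℕ) (S : List (List ℕ × ℕ)) (hS : ∀ e ∈ S, ∀ x ∈ e.1, x < n) (l : List ℕ)
    (hl : ∀ x ∈ l, x < n) : (coefZ (code l) S : ZMod p) = zf n p S (toF n l) := by
  have h1 : ∀ l' : List ℕ, (∀ x ∈ l', x < n) → (code l' = code l ↔ toF n l' = toF n l) := by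
    intro l' hl'
    rw [code_eq_iff]
    constructor
    · intro h
      ext v
      rw [mem_toF, mem_toF, h]
    · intro h x
      constructor
      · intro hx
        have h2 : (⟨x, hl' x hx⟩ : Fin n) ∈ toF n l' := mem_toF.2 hx
        rw [h] at h2
        exact mem_toF.1 h2
      · intro hx
        have h2 : (⟨x, hl x hx⟩ : Fin n) ∈ toF n l := mem_toF.2 hx
        rw [← h] at h2
        exact mem_toF.1 h2
  induction S with
  | nil => simp [coefZ, zf]
  | cons e S ih =>
    have h2 := ih fun e' he' => hS e' (List.mem_cons_of_mem _ he')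
    have h3 := h1 e.1 (hS e List.mem_cons_self)
    unfold coefZ
    have h4 : zf n p (e :: S) (toF n l) = (if toF n e.1 = toF n l then (e.2 : ZMod p) else 0) + zf n p S (toF n l) :=
      rfl
    rw [h4]
    rcases h : Nat.beq (code e.1) (code l) with _ | _
    · have h5 : code e.1 ≠ code l := Nat.ne_of_beq_eq_false h
      rw [cond_false, if_neg (fun h6 => h5 (h3.2 h6)), zero_add, h2]
    · have h5 : code e.1 = code l := Nat.eq_of_beq_eq_true h
      rw [cond_true, if_pos (h3.1 h5), ← h2]
      show ((e.2 + coefZ (code l) S : ℕ) : ZMod p) = _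
      push_cast
      rfl

/-- the doubled cycle -/
theorem exists_dbl {N d p : ℕ} [Fact p.Prime] {H : SimpleGraph (Fin N)} {adj : ℕ → ℕ → Bool}
    (hadj : ∀ x y : Fin N, H.Adj x y ↔ adj x y = true) {V : List (ℕ × ℕ × ℕ)} {S : List (List ℕ × ℕ)}
    (h : chk N d p adj V S = true) :
    ∃ (Z : Dbl (ZMod p) H d) (c : Fin Z.n → Fin (d + 1)),
      (∀ v w a b, H.Adj (Z.j v a) (Z.j w b) → c v ≠ c w) ∧ Z.n = V.length ∧ Z.U.card = numU V := by
  classical
  unfold chk at h
  rw [bif_false, bif_false, bif_false, bif_false, all_iff, pw_iff, all_iff, all_iff] at h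
  obtain ⟨h1, h2, h3, h4, h5⟩ := h
  have hp : 1 ≤ p := (Fact.out : p.Prime).one_lt.le
  obtain ⟨n, hn⟩ : ∃ n, n = V.length := ⟨_, rfl⟩
  have hV : ∀ v : Fin n, V[(v : ℕ)]'(by omega) ∈ V := fun v => List.getElem_mem _
  have h1' := fun v : Fin n => okV_iff.1 (h1 _ (hV v))
  obtain ⟨j, hj⟩ : ∃ j : Fin n → Bool → Fin N, (∀ v, (j v true : ℕ) = (V[(v : ℕ)]'(by omega)).1) ∧
      ∀ v, (j v false : ℕ) = (V[(v : ℕ)]'(by omega)).2.1 :=
    ⟨fun v b => match b with
      | true => ⟨(V[(v : ℕ)]'(by omega)).1, (h1' v).1⟩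
      | false => ⟨(V[(v : ℕ)]'(by omega)).2.1, (h1' v).2.1⟩, fun v => rfl, fun v => rfl⟩
  obtain ⟨hjt, hjf⟩ := hj
  obtain ⟨c, hc⟩ : ∃ c : Fin n → Fin (d + 1), ∀ v, (c v : ℕ) = (V[(v : ℕ)]'(by omega)).2.2 :=
    ⟨fun v => ⟨(V[(v : ℕ)]'(by omega)).2.2, (h1' v).2.2.1⟩, fun v => rfl⟩
  -- two different vertices
  have key : ∀ v w : Fin n, v < w → (∀ a b, j v a ≠ j w b) ∧ (c v = c w → ∀ a b, ¬ H.Adj (j v a) (j w b)) ∧
      (j v true = j v false → j w true = j w false → H.Adj (j v true) (j w true)) := by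
    intro v w hvw
    have h6 := okP_iff.1 (List.pairwise_iff_getElem.1 h2 v w (by omega) (by omega) hvw)
    obtain ⟨e1, e2, e3, e4, e5, e6⟩ := h6
    refine ⟨?_, ?_, ?_⟩
    · intro a b h
      have h7 := congrArg Fin.val h
      cases a <;> cases b <;> simp only [hjt, hjf] at h7
      · exact e4 h7
      · exact e3 h7
      · exact e2 h7
      · exact e1 h7
    · intro h a b hab
      have h7 := congrArg Fin.val h
      rw [hc, hc] at h7
      obtain ⟨f1, f2, f3, f4⟩ := e5 h7
      rw [hadj] at hab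
      cases a <;> cases b <;> simp only [hjt, hjf] at hab
      · exact f4 hab
      · exact f3 hab
      · exact f2 hab
      · exact f1 hab
    · intro h h'
      have h7 := congrArg Fin.val h
      have h8 := congrArg Fin.val h'
      rw [hjt, hjf] at h7 h8
      rw [hadj, hjt, hjt]
      exact e6 h7 h8
  have hS : ∀ e ∈ S, (∀ x ∈ e.1, x < n) ∧ e.1.Nodup := by
    intro e he
    obtain ⟨-, h7, h8, -⟩ := okS_iff.1 (h3 e he)
    exact ⟨by rw [hn]; exact h7, h8⟩
  have hz : ∀ σ : Finset (Fin n), zf n p S σ ≠ 0 → ∃ e ∈ S, toF n e.1 = σ := by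
    intro σ hσ
    by_contra h6
    push Not at h6
    apply hσ
    unfold zf
    apply List.sum_eq_zero
    intro x hx
    rw [List.mem_map] at hx
    obtain ⟨e, he, rfl⟩ := hx
    rw [if_neg (h6 e he)]
  have hgetD : ∀ v : Fin n, V.getD v (0, 0, 0) = V[(v : ℕ)]'(by omega) := by
    intro v
    rw [List.getD_eq_getElem _ _ (by omega)]
  have hE : ∀ v w : Fin n, okE V adj v w = true → ∀ a b, H.Adj (j v a) (j w b) := by
    intro v w h6 a b
    obtain ⟨e1, e2, e3, e4⟩ := okE_iff.1 h6
    rw [hgetD, hgetD] at e1 e2 e3 e4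
    rw [hadj]
    cases a <;> cases b <;> simp only [hjt, hjf]
    · exact e4
    · exact e3
    · exact e2
    · exact e1
  refine ⟨⟨n, zf n p S, j, Finset.univ.filter fun v => j v true = j v false, ?_, ?_, ?_, ?_, ?_, ?_, ?_, ?_⟩, c,
    ?_, hn, ?_⟩
  · -- not zero
    rcases S with _ | ⟨e, S⟩
    · cases h5
    · intro h6
      rw [bif_false'] at h5
      have h7 : (coefZ (code e.1) (e :: S) : ZMod p) = 0 := by
        rw [coefZ_eq (n := n) p (e :: S) (fun e' he' => (hS e' he').1) e.1 (hS e List.mem_cons_self).1, h6]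
        rfl
      rw [ZMod.natCast_eq_zero_iff] at h7
      exact h5.1 (beq_iff.2 (Nat.mod_eq_zero_of_dvd h7))
  · -- dimension
    intro σ hσ
    obtain ⟨e, he, rfl⟩ := hz σ hσ
    rw [card_toF (hS e he).1 (hS e he).2]
    exact (okS_iff.1 (h3 e he)).1
  · -- cycle
    intro τ
    exact zf_cyc hp S hS (fun f hf => beq_iff.1 (h4 f hf)) τ
  · -- different
    intro v w hvw a b
    rcases lt_or_gt_of_ne hvw with h6 | h6
    · exact (key v w h6).1 a b
    · exact ((key w v h6).1 b a).symm
  · intro v hv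
    exact (Finset.mem_filter.1 hv).2
  · intro v hv
    have h6 : ¬ j v true = j v false := fun h => hv (Finset.mem_filter.2 ⟨Finset.mem_univ _, h⟩)
    refine ⟨h6, ?_⟩
    rw [hadj, hjt, hjf]
    refine (h1' v).2.2.2 fun h => h6 (Fin.ext ?_)
    rw [hjt, hjf, h]
  · intro σ hσ v hv w hw hvw a b
    obtain ⟨e, he, rfl⟩ := hz σ hσ
    rw [mem_toF] at hv hw
    have h6 := (okS_iff.1 (h3 e he)).2.2.2
    obtain ⟨i, hi, hi'⟩ := List.getElem_of_mem hv
    obtain ⟨k, hk, hk'⟩ := List.getElem_of_mem hw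
    rcases lt_trichotomy i k with h7 | h7 | h7
    · have h8 := List.pairwise_iff_getElem.1 h6 i k hi hk h7
      rw [hi', hk'] at h8
      exact hE v w h8 a b
    · subst h7
      exact absurd (Fin.ext (hi'.symm.trans hk')) hvw
    · have h8 := List.pairwise_iff_getElem.1 h6 k i hk hi h7
      rw [hi', hk'] at h8
      exact (hE w v h8 b a).symm
  · intro v hv w hw hvw
    have h6 := (Finset.mem_filter.1 hv).2
    have h7 := (Finset.mem_filter.1 hw).2
    rcases lt_or_gt_of_ne hvw with h8 | h8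
    · exact (key v w h8).2.2 h6 h7
    · exact ((key w v h8).2.2 h7 h6).symm
  · intro v w a b hab h
    replace h : c v = c w := h
    rcases lt_trichotomy v w with h8 | h8 | h8
    · exact (key v w h8).2.1 h a b hab
    · subst h8
      replace hab : H.Adj (j v a) (j v b) := hab
      have h9 := (h1' v).2.2.2
      cases a <;> cases b
      · exact absurd hab (H.irrefl)
      · have h10 := hab.symm
        rw [hadj, hjt, hjf] at h10
        refine h9 (fun h => ?_) h10
        exact hab.ne (Fin.ext (by rw [hjt, hjf, h]))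
      · have h10 := hab
        rw [hadj, hjt, hjf] at h10
        refine h9 (fun h => ?_) h10
        exact hab.ne (Fin.ext (by rw [hjt, hjf, h]))
      · exact absurd hab (H.irrefl)
    · exact (key w v h8).2.1 h.symm b a hab.symm
  · -- the number of the vertices with one lift
    show (Finset.univ.filter fun v => j v true = j v false).card = numU V
    unfold numU
    subst hn
    rw [countP_eq_sum, ← Fin.sum_univ_fun_getElem, Finset.card_filter]
    refine Finset.sum_congr rfl fun v _ => ?_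
    have h6 : j v true = j v false ↔ Nat.beq (V[(v : ℕ)]'(v.2)).1 (V[(v : ℕ)]'(v.2)).2.1 = true := by
      rw [beq_iff, ← hjt, ← hjf, Fin.ext_iff]
    simp only [h6]

end Pool.Agent.V8H54.LT
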