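import Pool.Agent.N496.LT.Stm

/-!
# Project LT: doubled cycles from explicit data

`DD` is a list of natural numbers describing a doubled cycle (vertices, lifts, simplices with coefficients, colours),
`DD.chk` a Boolean function for the evaluation by the kernel, and `DD.exists_dbl` turns `chk = true` into `Dbl`.
-/

set_option autoImplicit false

noncomputable section

namespace Pool.Agent.V8H54.LT

open Pool.Agent.N496.LT Pool.Agent.W907.SG

/-- the natural number with the binary digits of the elements of the list -/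
def code : List ℕ → ℕ
  | [] => 0
  | x :: l => Nat.lor (Nat.pow 2 x) (code l)

theorem testBit_code (l : List ℕ) (v : ℕ) : (code l).testBit v = decide (v ∈ l) := by
  induction l with
  | nil => simp [code]
  | cons x l ih =>
    show (2 ^ x ||| code l).testBit v = _
    rw [Nat.testBit_or, ih, Nat.testBit_two_pow]
    by_cases h : x = v
    · simp [h]
    · simp [h, Ne.symm h]

theorem code_eq_iff (l l' : List ℕ) : code l = code l' ↔ ∀ x, x ∈ l ↔ x ∈ l' := by
  constructor
  · intro h x
    have h1 := congrArg (fun m => Nat.testBit m x) h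
    simp only [testBit_code] at h1
    exact decide_eq_decide.1 h1
  · intro h
    apply Nat.eq_of_testBit_eq
    intro i
    rw [testBit_code, testBit_code]
    exact decide_eq_decide.2 (h i)

/-- membership, for the kernel -/
def mem (x : ℕ) : List ℕ → Bool
  | [] => false
  | y :: l => bif Nat.beq x y then true else mem x l

theorem mem_iff (x : ℕ) (l : List ℕ) : mem x l = true ↔ x ∈ l := by
  induction l with
  | nil => simp [mem]
  | cons y l ih =>
    unfold mem
    rcases h : Nat.beq x y with _ | _
    · have h1 : x ≠ y := Nat.ne_of_beq_eq_false h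
      rw [cond_false, ih]
      simp [h1]
    · have h1 : x = y := Nat.eq_of_beq_eq_true h
      simp [h1]

/-- no repetitions, for the kernel -/
def nodup : List ℕ → Bool
  | [] => true
  | y :: l => bif mem y l then false else nodup l

theorem nodup_iff (l : List ℕ) : nodup l = true ↔ l.Nodup := by
  induction l with
  | nil => simp [nodup]
  | cons y l ih =>
    unfold nodup
    rcases h : mem y l with _ | _
    · have h1 : y ∉ l := fun h2 => by rw [(mem_iff y l).2 h2] at h; cases h
      rw [cond_false, ih, List.nodup_cons]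
      simp [h1]
    · have h1 : y ∈ l := (mem_iff y l).1 h
      simp [h1]

/-- all, for the kernel -/
def all {α : Type} (f : α → Bool) : List α → Bool
  | [] => true
  | y :: l => bif f y then all f l else false

theorem all_iff {α : Type} (f : α → Bool) (l : List α) : all f l = true ↔ ∀ x ∈ l, f x = true := by
  induction l with
  | nil => simp [all]
  | cons y l ih =>
    unfold all
    rcases h : f y with _ | _
    · simp [h]
    · rw [cond_true, ih]
      simp [h]

/-- the elements without one element -/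
def rem (x : ℕ) : List ℕ → List ℕ
  | [] => []
  | y :: l => bif Nat.beq x y then l else y :: rem x l

theorem rem_eq (x : ℕ) (l : List ℕ) : rem x l = l.erase x := by
  induction l with
  | nil => rfl
  | cons y l ih =>
    unfold rem
    rcases h : Nat.beq x y with _ | _
    · have h1 : x ≠ y := Nat.ne_of_beq_eq_false h
      rw [cond_false, ih, List.erase_cons_tail]
      simpa using Ne.symm h1
    · have h1 : x = y := Nat.eq_of_beq_eq_true h
      subst h1
      simp

/-- `c` times `q` to the power of the number of the elements less than `x` -/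
def sgc (q x c : ℕ) : List ℕ → ℕ
  | [] => c
  | y :: l => bif Nat.ble x y then sgc q x c l else Nat.mul q (sgc q x c l)

theorem sgc_eq (q x c : ℕ) (l : List ℕ) : sgc q x c l = q ^ (l.countP fun y => decide (y < x)) * c := by
  induction l with
  | nil => simp [sgc]
  | cons y l ih =>
    unfold sgc
    rcases h : Nat.ble x y with _ | _
    · have h1 : y < x := by
        by_contra h2
        rw [Nat.ble_eq_true_of_le (not_lt.1 h2)] at h
        cases h
      rw [cond_false, ih, List.countP_cons_of_pos (by simpa using h1), pow_succ]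
      show q * _ = _
      ring
    · have h1 : x ≤ y := Nat.le_of_ble_eq_true h
      rw [cond_true, ih, List.countP_cons_of_neg (by simpa using h1)]

/-- the faces of a simplex, with signs -/
def facesAux (q c : ℕ) (l : List ℕ) (tl : List (ℕ × ℕ)) : List ℕ → List (ℕ × ℕ)
  | [] => tl
  | x :: l' => (code (rem x l), sgc q x c l) :: facesAux q c l tl l'

/-- all the faces -/
def allFaces (q : ℕ) : List (List ℕ × ℕ) → List (ℕ × ℕ)
  | [] => []
  | e :: S => facesAux q e.2 e.1 (allFaces q S) e.1

/-- the coefficient of `m` in the formal sum `F` -/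
def coefF (m : ℕ) : List (ℕ × ℕ) → ℕ
  | [] => 0
  | f :: F => bif Nat.beq f.1 m then Nat.add f.2 (coefF m F) else coefF m F

theorem coef_eq (m : ℕ) (F : List (ℕ × ℕ)) : coefF m F = (F.map fun f => if f.1 = m then f.2 else 0).sum := by
  induction F with
  | nil => rfl
  | cons f F ih =>
    unfold coefF
    rcases h : Nat.beq f.1 m with _ | _
    · have h1 : f.1 ≠ m := Nat.ne_of_beq_eq_false h
      rw [cond_false, ih]
      simp [h1]
    · have h1 : f.1 = m := Nat.eq_of_beq_eq_true h
      rw [cond_true, ih]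
      show f.2 + _ = _
      simp [h1]

theorem coef_facesAux (m q c : ℕ) (l : List ℕ) (tl : List (ℕ × ℕ)) (l' : List ℕ) :
    coefF m (facesAux q c l tl l') =
      (l'.map fun x => if code (rem x l) = m then sgc q x c l else 0).sum + coefF m tl := by
  rw [coef_eq, coef_eq]
  induction l' with
  | nil => simp [facesAux]
  | cons x l' ih =>
    unfold facesAux
    rw [List.map_cons, List.map_cons, List.sum_cons, List.sum_cons, ih]
    ring

theorem coef_allFaces (m q : ℕ) (S : List (List ℕ × ℕ)) :
    coefF m (allFaces q S) = (S.map fun e =>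
      (e.1.map fun x => if code (rem x e.1) = m then sgc q x e.2 e.1 else 0).sum).sum := by
  induction S with
  | nil => rfl
  | cons e S ih =>
    unfold allFaces
    rw [coef_facesAux, ih, List.map_cons, List.sum_cons]

theorem coef_eq_zero (m : ℕ) (F : List (ℕ × ℕ)) (h : ∀ f ∈ F, f.1 ≠ m) : coefF m F = 0 := by
  rw [coef_eq]
  apply List.sum_eq_zero
  intro x hx
  rw [List.mem_map] at hx
  obtain ⟨f, hf, rfl⟩ := hx
  rw [if_neg (h f hf)]

/-- the set of the elements of a list -/
def toF (n : ℕ) (l : List ℕ) : Finset (Fin n) := Finset.univ.filter fun v => (v : ℕ) ∈ l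

theorem mem_toF {n : ℕ} {l : List ℕ} {v : Fin n} : v ∈ toF n l ↔ (v : ℕ) ∈ l := by
  simp [toF]

theorem toF_eq {n : ℕ} {l : List ℕ} (hl : ∀ x ∈ l, x < n) :
    toF n l = (l.pmap (fun x hx => (⟨x, hx⟩ : Fin n)) hl).toFinset := by
  ext v
  rw [mem_toF, List.mem_toFinset, List.mem_pmap]
  constructor
  · intro h
    exact ⟨v, h, rfl⟩
  · rintro ⟨x, hx, rfl⟩
    exact hx

theorem nodup_pmap {n : ℕ} {l : List ℕ} (hl : ∀ x ∈ l, x < n) (hn : l.Nodup) :
    (l.pmap (fun x hx => (⟨x, hx⟩ : Fin n)) hl).Nodup := by
  refine hn.pmap ?_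
  intro a ha b hb h
  exact congrArg Fin.val h

theorem card_toF {n : ℕ} {l : List ℕ} (hl : ∀ x ∈ l, x < n) (hn : l.Nodup) : (toF n l).card = l.length := by
  rw [toF_eq hl, List.toFinset_card_of_nodup (nodup_pmap hl hn), List.length_pmap]

theorem sum_toF {M : Type} [AddCommMonoid M] {n : ℕ} {l : List ℕ} (hl : ∀ x ∈ l, x < n) (hn : l.Nodup)
    (g : Fin n → M) (g' : ℕ → M) (h : ∀ v : Fin n, g v = g' v) : ∑ v ∈ toF n l, g v = (l.map g').sum := by
  rw [toF_eq hl, List.sum_toFinset g (nodup_pmap hl hn), List.map_pmap]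
  congr 1
  rw [← List.pmap_eq_map (p := fun x => x < n) hl]
  refine List.pmap_congr_left _ ?_
  intro a _ h1 h2
  exact h _

theorem sg_toF {n : ℕ} {l : List ℕ} (hl : ∀ x ∈ l, x < n) (hn : l.Nodup) (v : Fin n) :
    sg v ((toF n l).erase v) = (-1) ^ (l.countP fun y => decide (y < (v : ℕ))) := by
  unfold sg
  congr 1
  have h1 : ((toF n l).erase v).filter (fun u => u < v) = toF n (l.filter fun y => decide (y < (v : ℕ))) := by
    ext u
    simp only [Finset.mem_filter, Finset.mem_erase, mem_toF, List.mem_filter, decide_eq_true_eq, Fin.lt_def]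
    constructor
    · rintro ⟨⟨-, h1⟩, h2⟩
      exact ⟨h1, h2⟩
    · rintro ⟨h1, h2⟩
      exact ⟨⟨fun h => by rw [h] at h2; exact absurd h2 (lt_irrefl _), h1⟩, h2⟩
  rw [h1, card_toF (fun x hx => hl x (List.mem_filter.1 hx).1) (hn.filter _), List.countP_eq_length_filter]

/-- the chain -/
def zf (n p : ℕ) (S : List (List ℕ × ℕ)) (σ : Finset (Fin n)) : ZMod p :=
  (S.map fun e => if toF n e.1 = σ then (e.2 : ZMod p) else 0).sum

theorem code_set {n : ℕ} (τ : Finset (Fin n)) : ∃ m : ℕ, ∀ l : List ℕ, (∀ x ∈ l, x < n) →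
    (code l = m ↔ toF n l = τ) := by
  refine ⟨code (τ.toList.map Fin.val), fun l hl => ?_⟩
  rw [code_eq_iff]
  constructor
  · intro h
    ext v
    rw [mem_toF, h, List.mem_map]
    constructor
    · rintro ⟨w, hw, h1⟩
      rw [Finset.mem_toList] at hw
      rwa [← Fin.ext h1]
    · intro hv
      exact ⟨v, Finset.mem_toList.2 hv, rfl⟩
  · rintro h x
    rw [List.mem_map]
    constructor
    · intro hx
      refine ⟨⟨x, hl x hx⟩, ?_, rfl⟩
      rw [Finset.mem_toList, ← h, mem_toF]
      exact hx
    · rintro ⟨w, hw, rfl⟩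
      rw [Finset.mem_toList, ← h, mem_toF] at hw
      exact hw

theorem toF_erase {n : ℕ} {l : List ℕ} (hn : l.Nodup) (v : Fin n) : (toF n l).erase v = toF n (l.erase v) := by
  ext u
  rw [Finset.mem_erase, mem_toF, mem_toF, hn.mem_erase_iff]
  constructor
  · rintro ⟨h1, h2⟩
    exact ⟨fun h => h1 (Fin.ext h), h2⟩
  · rintro ⟨h1, h2⟩
    exact ⟨fun h => h1 (congrArg Fin.val h), h2⟩

/-- the boundary of one simplex -/
theorem bd_one {n p : ℕ} (hp : 1 ≤ p) {l : List ℕ} (hl : ∀ x ∈ l, x < n) (hn : l.Nodup) (c : ℕ) (τ : Finset (Fin n))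
    (m : ℕ) (hm : ∀ l : List ℕ, (∀ x ∈ l, x < n) → (code l = m ↔ toF n l = τ)) :
    ∑ v ∈ τᶜ, (sg v τ) • (if toF n l = insert v τ then (c : ZMod p) else 0) =
      (((l.map fun x => if code (rem x l) = m then sgc (p - 1) x c l else 0).sum : ℕ) : ZMod p) := by
  classical
  have h1 : ∑ v ∈ τᶜ, (sg v τ) • (if toF n l = insert v τ then (c : ZMod p) else 0) =
      ∑ v ∈ toF n l, if (toF n l).erase v = τ then (sg v ((toF n l).erase v)) • (c : ZMod p) else 0 := by
    rw [← Finset.sum_subset (s₁ := τᶜ ∩ toF n l) (s₂ := τᶜ) Finset.inter_subset_left,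
      ← Finset.sum_subset (s₁ := τᶜ ∩ toF n l) (s₂ := toF n l) Finset.inter_subset_right]
    · refine Finset.sum_congr rfl fun v hv => ?_
      rw [Finset.mem_inter, Finset.mem_compl] at hv
      by_cases h : toF n l = insert v τ
      · have h2 : (toF n l).erase v = τ := by rw [h, Finset.erase_insert hv.1]
        rw [if_pos h, if_pos h2, h2]
      · have h2 : (toF n l).erase v ≠ τ := by
          intro h2
          apply h
          rw [← h2, Finset.insert_erase hv.2]
        rw [if_neg h, if_neg h2, smul_zero]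
    · intro v hv hv2
      rw [if_neg]
      intro h
      apply hv2
      rw [Finset.mem_inter, Finset.mem_compl, ← h]
      exact ⟨by simp, hv⟩
    · intro v hv hv2
      rw [if_neg, smul_zero]
      intro h
      apply hv2
      rw [Finset.mem_inter, h]
      exact ⟨hv, Finset.mem_insert_self _ _⟩
  rw [h1, sum_toF hl hn _ (fun x => if code (rem x l) = m then ((sgc (p - 1) x c l : ℕ) : ZMod p) else 0)]
  · rw [Nat.cast_list_sum, List.map_map]
    congr 1
    refine List.map_congr_left fun x _ => ?_
    simp only [Function.comp]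
    split_ifs <;> simp
  · intro v
    have h2 : (toF n l).erase v = τ ↔ code (rem v l) = m := by
      rw [hm _ fun x hx => hl x (by rw [rem_eq] at hx; exact List.mem_of_mem_erase hx), rem_eq, toF_erase hn]
    by_cases h : code (rem v l) = m
    · rw [if_pos h, if_pos (h2.2 h), sg_toF hl hn, sgc_eq, Nat.cast_mul, Nat.cast_pow, Nat.cast_sub hp, zsmul_eq_mul]
      simp
    · rw [if_neg h, if_neg fun h3 => h (h2.1 h3)]

/-- the chain is a cycle -/
theorem zf_cyc {n p : ℕ} (hp : 1 ≤ p) (S : List (List ℕ × ℕ)) (hS : ∀ e ∈ S, (∀ x ∈ e.1, x < n) ∧ e.1.Nodup)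
    (hF : ∀ f ∈ allFaces (p - 1) S, coefF f.1 (allFaces (p - 1) S) % p = 0) (τ : Finset (Fin n)) :
    ∑ v ∈ τᶜ, (sg v τ) • zf n p S (insert v τ) = 0 := by
  obtain ⟨m, hm⟩ := code_set τ
  have h1 : ∀ S' : List (List ℕ × ℕ), (∀ e ∈ S', (∀ x ∈ e.1, x < n) ∧ e.1.Nodup) →
      ∑ v ∈ τᶜ, (sg v τ) • zf n p S' (insert v τ) = (coefF m (allFaces (p - 1) S') : ℕ) := by
    intro S'
    induction S' with
    | nil =>
      intro _
      simp [zf, allFaces, coefF]
    | cons e S' ih =>
      intro h
      unfold allFaces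
      rw [coef_facesAux, Nat.cast_add, ← ih fun e' he' => h e' (List.mem_cons_of_mem _ he'),
        ← bd_one hp (h e List.mem_cons_self).1 (h e List.mem_cons_self).2 e.2 τ m hm, ← Finset.sum_add_distrib]
      refine Finset.sum_congr rfl fun v _ => ?_
      rw [← smul_add]
      rfl
  rw [h1 S hS]
  by_cases h2 : ∃ f ∈ allFaces (p - 1) S, f.1 = m
  · obtain ⟨f, hf, rfl⟩ := h2
    have h3 := hF f hf
    rw [← ZMod.natCast_mod, h3, Nat.cast_zero]
  · rw [coef_eq_zero m _ fun f hf h => h2 ⟨f, hf, h⟩, Nat.cast_zero]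

end Pool.Agent.V8H54.LT
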